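import Pool.Agent.H17.UN.Tow

set_option autoImplicit false

open Polynomial
open Pool.Agent.H17.UN

namespace Pool.Agent.H12.UN

theorem bch_gen {K L : Type} [Field K] [Field L] [Algebra K L]
    (F Kb : IntermediateField K L) (S : Set F) (S' : Set (Fb F Kb))
    (h : (fun a : F => (a : L)) '' S = (fun a : Fb F Kb => (a : L)) '' S') :
    Algebra.adjoin Kb {a : Fb F Kb | ∃ b ∈ Algebra.adjoin K S, (a : L) = (b : L)} =
      Algebra.adjoin Kb S' := by
  apply le_antisymm
  · rw [Algebra.adjoin_le_iff]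
    rintro a ⟨b, hb, hab⟩
    have key : ∀ b : F, b ∈ Algebra.adjoin K S →
        ∃ a : Fb F Kb, a ∈ Algebra.adjoin Kb S' ∧ (a : L) = (b : L) := by
      intro b hb
      induction hb using Algebra.adjoin_induction with
      | mem x hx =>
        have : (x : L) ∈ (fun a : Fb F Kb => (a : L)) '' S' := by
          rw [← h]; exact ⟨x, hx, rfl⟩
        obtain ⟨a, ha, hax⟩ := this
        exact ⟨a, Algebra.subset_adjoin ha, hax⟩
      | algebraMap r =>
        refine ⟨algebraMap Kb (Fb F Kb) (algebraMap K Kb r), Subalgebra.algebraMap_mem _ _, rfl⟩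
      | add x y hx hy hx' hy' =>
        obtain ⟨a, ha, hax⟩ := hx'
        obtain ⟨c, hc, hcy⟩ := hy'
        refine ⟨a + c, add_mem ha hc, ?_⟩
        push_cast
        rw [hax, hcy]
      | mul x y hx hy hx' hy' =>
        obtain ⟨a, ha, hax⟩ := hx'
        obtain ⟨c, hc, hcy⟩ := hy'
        refine ⟨a * c, mul_mem ha hc, ?_⟩
        push_cast
        rw [hax, hcy]
    obtain ⟨a', ha', hab'⟩ := key b hb
    have : a = a' := Subtype.ext (hab.trans hab'.symm)
    rw [this]
    exact ha'
  · rw [Algebra.adjoin_le_iff]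
    intro a ha
    apply Algebra.subset_adjoin
    have : (a : L) ∈ (fun a : F => (a : L)) '' S := by
      rw [h]; exact ⟨a, ha, rfl⟩
    obtain ⟨b, hb, hba⟩ := this
    exact ⟨b, Algebra.subset_adjoin hb, hba.symm⟩

theorem pf_BCH : T_BCH := by
  intro K L _ _ _ F Kb X hn s y z s' y' z' hs hy hz hA i
  have h1 : X.base Kb (Fin.cast hn.symm i) =
      Algebra.adjoin Kb {a : Fb F Kb | ∃ b ∈ ch K s y z i, (a : L) = (b : L)} := by
    unfold Variety.base
    rw [hA i]
  rw [h1]
  fin_cases i
  · refine bch_gen F Kb _ _ ?_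
    simp [Set.image_insert_eq, hs, hy, hz]
  · refine bch_gen F Kb _ _ ?_
    simp [Set.image_insert_eq, hs, hy, hz]
  · refine bch_gen F Kb _ _ ?_
    simp [Set.image_insert_eq, hs, hy, hz]
  · refine bch_gen F Kb _ _ ?_
    simp [Set.image_insert_eq, hs, hy, hz]

end Pool.Agent.H12.UN
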