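import Pool.Agent.H17.UN.Tow

set_option autoImplicit false

open Polynomial
open Pool.Agent.H17.UN

namespace Pool.Agent.H12.UN

theorem cb_of {k L : Type} [Field k] [Field L] [Algebra k L] (G : IntermediateField k L)
    (s' y' z' : G) (P Q : k[X])
    (con : (y' : L) ^ 2 = aeval (s' : L) P + aeval (s' : L) Q * (z' : L) ^ 2)
    (ind : AlgebraicIndependent k ![(s' : L), (z' : L)])
    (hG : G = IntermediateField.adjoin k {(s' : L), (y' : L), (z' : L)})
    (dP : P.natDegree = 3) (dQ : Q.natDegree = 2) (sep : (P * Q).Separable) :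
    CB P Q s' y' z' := by
  have hval : Function.Injective G.val := G.val.toRingHom.injective
  refine ⟨?_, ?_, ?_, dP, dQ, sep⟩
  · apply hval
    have h1 : G.val (aeval s' P) = aeval (s' : L) P :=
      (Polynomial.aeval_algHom_apply G.val s' P).symm
    have h2 : G.val (aeval s' Q) = aeval (s' : L) Q :=
      (Polynomial.aeval_algHom_apply G.val s' Q).symm
    rw [map_add, map_mul, map_pow, map_pow, h1, h2]
    exact con
  · have h1 : AlgebraicIndependent k (G.val ∘ ![s', z']) := by
      have h2 : (G.val ∘ ![s', z']) = ![(s' : L), (z' : L)] := by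
        funext j
        fin_cases j <;> rfl
      rw [h2]
      exact ind
    exact AlgebraicIndependent.of_comp G.val h1
  · apply IntermediateField.lift_injective G
    rw [IntermediateField.lift_adjoin, IntermediateField.lift_top, Set.image_insert_eq,
      Set.image_insert_eq, Set.image_singleton]
    exact hG.symm

theorem ind_sub {K L : Type} [Field K] [Field L] [Algebra K L] {x : Fin 10 → L} (a b : L)
    (ha : x 0 = a) (hb : x 1 = b) (h : AlgebraicIndependent K x) :
    AlgebraicIndependent K ![a, b] := by
  have hinj : Function.Injective (![0, 1] : Fin 2 → Fin 10) := by decide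
  have h1 := h.comp ![0, 1] hinj
  have h2 : x ∘ ![0, 1] = ![a, b] := by
    funext j
    fin_cases j
    · exact ha
    · exact hb
  rw [h2] at h1
  exact h1

theorem pf_CBK : T_CBK := by
  intro K L _ _ _ _ P Q e c c' p0 F Kb Ω0 Ω s y z v X Y X' Y' w hD hT s' y' z' hs hy hz
  refine cb_of F s' y' z' P Q ?_ ?_ ?_ hD.dP hD.dQ hD.sep
  · rw [hs, hy, hz]; exact hT.con
  · rw [hs, hz]; exact ind_sub s z rfl rfl hT.ind
  · rw [hs, hy, hz]; exact hT.hF

theorem pf_CBB : T_CBB := by
  intro K L _ _ _ _ P Q e c c' p0 F Kb Ω0 Ω s y z v X Y X' Y' w hD hT s' y' z' hs hy hz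
  have halg : Algebra.IsAlgebraic K Kb := ⟨fun x => by
    have h1 : IsAlgebraic K (Kb.val x) := hT.alg x.1 x.2
    exact (isAlgebraic_algHom_iff Kb.val Kb.val.toRingHom.injective).1 h1⟩
  refine cb_of (Fb F Kb) s' y' z' _ _ ?_ ?_ ?_ ?_ ?_ ?_
  · rw [hs, hy, hz, Polynomial.aeval_map_algebraMap, Polynomial.aeval_map_algebraMap]
    exact hT.con
  · rw [hs, hz]
    exact (ind_sub s z rfl rfl hT.ind).extendScalars Kb
  · rw [hs, hy, hz]
    apply le_antisymm
    · rw [IntermediateField.adjoin_le_iff]
      intro x hx
      have h1 : F ≤ (IntermediateField.adjoin Kb {s, y, z}).restrictScalars K := by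
        rw [hT.hF, IntermediateField.adjoin_le_iff]
        exact IntermediateField.subset_adjoin Kb _
      exact h1 hx
    · rw [IntermediateField.adjoin_le_iff]
      intro x hx
      apply IntermediateField.subset_adjoin Kb
      show x ∈ F
      rw [hT.hF]
      exact IntermediateField.subset_adjoin K _ hx
  · rw [Polynomial.natDegree_map]; exact hD.dP
  · rw [Polynomial.natDegree_map]; exact hD.dQ
  · rw [← Polynomial.map_mul]; exact hD.sep.map

end Pool.Agent.H12.UN
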