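import Pool.Agent.H17.UN.Tow
import Pool.Agent.H12.UT.Link
import Pool.Agent.H12.UT.EXV

set_option autoImplicit false

open Polynomial
open Pool.Agent.H17.UN

namespace Pool.Agent.H12.UN

theorem pf_LNK : T_LNK := by
  intro K L _ _ _ Ω0 Ω w hΩ hw hst
  have hle : Ω0 ≤ Ω := by rw [hΩ]; exact le_sup_left
  have hwΩ : w ∈ Ω := by
    rw [hΩ]
    exact (le_sup_right : IntermediateField.adjoin K {w} ≤ Ω0 ⊔ IntermediateField.adjoin K {w})
      (IntermediateField.subset_adjoin K _ rfl)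
  let _ : Algebra Ω0 Ω := (IntermediateField.inclusion hle).toRingHom.toAlgebra
  have hmap : ∀ x : Ω0, ((algebraMap Ω0 Ω x : Ω) : L) = (x : L) := fun x => rfl
  have : IsScalarTower K Ω0 Ω := IsScalarTower.of_algebraMap_eq (fun x => rfl)
  have : IsScalarTower Ω0 Ω L := IsScalarTower.of_algebraMap_eq (fun x => rfl)
  have hw' : Transcendental Ω0 (⟨w, hwΩ⟩ : Ω) := by
    have h1 : algebraMap Ω L (⟨w, hwΩ⟩ : Ω) = w := rfl
    have h2 : Transcendental Ω0 (algebraMap Ω L (⟨w, hwΩ⟩ : Ω)) := by rw [h1]; exact hw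
    exact (transcendental_algebraMap_iff (algebraMap Ω L).injective).1 h2
  have hgen : IntermediateField.adjoin Ω0 {(⟨w, hwΩ⟩ : Ω)} = ⊤ := by
    rw [eq_top_iff]
    rintro x -
    have h1 : Ω ≤ ((IntermediateField.adjoin Ω0 {(⟨w, hwΩ⟩ : Ω)}).restrictScalars K).map
        Ω.val := by
      intro y hy
      rw [hΩ] at hy
      have h2 : Ω0 ⊔ IntermediateField.adjoin K {w} ≤
          ((IntermediateField.adjoin Ω0 {(⟨w, hwΩ⟩ : Ω)}).restrictScalars K).map Ω.val := by
        refine sup_le ?_ ?_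
        · intro a ha
          refine (IntermediateField.mem_map _).2 ⟨algebraMap Ω0 Ω ⟨a, ha⟩, ?_, rfl⟩
          exact (IntermediateField.adjoin Ω0 {(⟨w, hwΩ⟩ : Ω)}).algebraMap_mem ⟨a, ha⟩
        · rw [IntermediateField.adjoin_le_iff]
          rintro a rfl
          refine (IntermediateField.mem_map _).2 ⟨(⟨a, hwΩ⟩ : Ω), ?_, rfl⟩
          exact IntermediateField.subset_adjoin Ω0 _ rfl
      exact h2 hy
    obtain ⟨y, hy, hyx⟩ := (IntermediateField.mem_map _).1 (h1 x.2)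
    have : y = x := Subtype.ext hyx
    rw [← this]
    exact hy
  exact Pool.Agent.H12.UT.sr_of_adjoin Pool.Agent.H12.UT.pf_EXV
    (⟨w, hwΩ⟩ : Ω) hw' hgen hst

end Pool.Agent.H12.UN
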