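import Pool.Agent.H17.UN.Tow

set_option autoImplicit false

open Polynomial
open Pool.Agent.H17.UN

namespace Pool.Agent.H12.UN

theorem tow_of {K M : Type} [Field K] [Field M] [Algebra K M] [IsAlgClosed M] (P Q : K[X])
    (e c : Fin 5 → K) (c' : K) (s y z v : M) (X Y : Fin 5 → M) (X' Y' w : M)
    (con : y ^ 2 = aeval s P + aeval s Q * z ^ 2)
    (eqs : ∀ i, s * v - algebraMap K M (e i) * v =
      algebraMap K M (1 - e i) * (X i ^ 2 - algebraMap K M (c i) * Y i ^ 2))
    (inf : v = X' ^ 2 - algebraMap K M c' * Y' ^ 2)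
    (ind : AlgebraicIndependent K ![s, z, v, Y 0, Y 1, Y 2, Y 3, Y 4, Y', w]) :
    ∃ (L : Type) (_ : Field L) (_ : Algebra K L) (F Kb Ω0 Ω : IntermediateField K L)
      (s y z v : L) (X Y : Fin 5 → L) (X' Y' w : L),
      Tow P Q e c c' F Kb Ω0 Ω s y z v X Y X' Y' w := by
  set S0 : Set M := {s, y, z, v, X', Y'} ∪ (Set.range X ∪ Set.range Y) with hS0
  set T : IntermediateField K M :=
    (IntermediateField.adjoin K S0 ⊔ IntermediateField.adjoin K {w}) ⊔ algebraicClosure K M with hT
  have hS0T : S0 ⊆ T := fun a ha => (le_sup_left : _ ≤ T)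
    ((le_sup_left : IntermediateField.adjoin K S0 ≤ _) (IntermediateField.subset_adjoin K _ ha))
  have hwT : w ∈ T := (le_sup_left : _ ≤ T)
    ((le_sup_right : IntermediateField.adjoin K {w} ≤ _)
      (IntermediateField.subset_adjoin K _ rfl))
  have hKbT : algebraicClosure K M ≤ T := le_sup_right
  have hsT : s ∈ T := hS0T (by simp [hS0])
  have hyT : y ∈ T := hS0T (by simp [hS0])
  have hzT : z ∈ T := hS0T (by simp [hS0])
  have hvT : v ∈ T := hS0T (by simp [hS0])
  have hX'T : X' ∈ T := hS0T (by simp [hS0])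
  have hY'T : Y' ∈ T := hS0T (by simp [hS0])
  have hXT : ∀ i, X i ∈ T := fun i => hS0T (by simp [hS0])
  have hYT : ∀ i, Y i ∈ T := fun i => hS0T (by simp [hS0])
  let s1 : T := ⟨s, hsT⟩
  let y1 : T := ⟨y, hyT⟩
  let z1 : T := ⟨z, hzT⟩
  let v1 : T := ⟨v, hvT⟩
  let X1 : Fin 5 → T := fun i => ⟨X i, hXT i⟩
  let Y1 : Fin 5 → T := fun i => ⟨Y i, hYT i⟩
  let X'1 : T := ⟨X', hX'T⟩
  let Y'1 : T := ⟨Y', hY'T⟩
  let w1 : T := ⟨w, hwT⟩
  have hcl : IsAlgClosed (algebraicClosure K M) := IsAlgClosure.isAlgClosed K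
  have himg : (Subtype.val : T → M) '' (({s1, y1, z1, v1, X'1, Y'1} : Set T) ∪
      (Set.range X1 ∪ Set.range Y1)) = S0 := by
    rw [Set.image_union, Set.image_union, ← Set.range_comp, ← Set.range_comp]
    simp only [Set.image_insert_eq, Set.image_singleton]
    rfl
  refine ⟨T, inferInstance, inferInstance, IntermediateField.adjoin K {s1, y1, z1},
    IntermediateField.restrict hKbT,
    IntermediateField.adjoin K (({s1, y1, z1, v1, X'1, Y'1} : Set T) ∪
      (Set.range X1 ∪ Set.range Y1)),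
    IntermediateField.adjoin K (({s1, y1, z1, v1, X'1, Y'1} : Set T) ∪
      (Set.range X1 ∪ Set.range Y1)) ⊔ IntermediateField.adjoin K {w1},
    s1, y1, z1, v1, X1, Y1, X'1, Y'1, w1, ?_⟩
  have hval : Function.Injective T.val := T.val.toRingHom.injective
  refine
    { alg := ?_
      cls := ?_
      sup := ?_
      con := ?_
      eqs := ?_
      inf := ?_
      ind := ?_
      hF := rfl
      hΩ0 := rfl
      hΩ := rfl }
  · intro x hx
    rw [IntermediateField.mem_restrict] at hx
    have h1 : IsAlgebraic K (x.1 : M) := mem_algebraicClosure_iff.1 hx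
    exact (isAlgebraic_algHom_iff T.val hval).1 h1
  · exact IsAlgClosed.of_ringEquiv _ _ (IntermediateField.restrictAlgEquiv hKbT).toRingEquiv
  · apply IntermediateField.lift_injective T
    rw [IntermediateField.lift_sup, IntermediateField.lift_sup, IntermediateField.lift_adjoin,
      IntermediateField.lift_adjoin, IntermediateField.lift_restrict, IntermediateField.lift_top,
      himg, Set.image_singleton]
  · apply hval
    have h1 : T.val (aeval s1 P) = aeval s P := (Polynomial.aeval_algHom_apply T.val s1 P).symm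
    have h2 : T.val (aeval s1 Q) = aeval s Q := (Polynomial.aeval_algHom_apply T.val s1 Q).symm
    rw [map_add, map_mul, map_pow, map_pow, h1, h2]
    exact con
  · intro i
    apply hval
    have h3 : T.val (s1 * v1 - algebraMap K T (e i) * v1) = s * v - algebraMap K M (e i) * v := rfl
    have h4 : T.val (algebraMap K T (1 - e i) * (X1 i ^ 2 - algebraMap K T (c i) * Y1 i ^ 2)) =
      algebraMap K M (1 - e i) * (X i ^ 2 - algebraMap K M (c i) * Y i ^ 2) := rfl
    exact h3.trans ((eqs i).trans h4.symm)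
  · apply hval
    rw [map_sub, map_mul, map_pow, map_pow, AlgHom.commutes]
    exact inf
  · have h1 : AlgebraicIndependent K
        (T.val ∘ ![s1, z1, v1, Y1 0, Y1 1, Y1 2, Y1 3, Y1 4, Y'1, w1]) := by
      have h2 : (T.val ∘ ![s1, z1, v1, Y1 0, Y1 1, Y1 2, Y1 3, Y1 4, Y'1, w1]) =
          ![s, z, v, Y 0, Y 1, Y 2, Y 3, Y 4, Y', w] := by
        funext j
        fin_cases j <;> rfl
      rw [h2]
      exact ind
    exact AlgebraicIndependent.of_comp T.val h1

theorem pf_TOW : T_TOW := by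
  intro K _ _ P Q e c c' he
  let M := AlgebraicClosure (FractionRing (MvPolynomial (Fin 10) K))
  let x : Fin 10 → M := fun j => algebraMap (MvPolynomial (Fin 10) K) M (MvPolynomial.X j)
  have hinj : Function.Injective (algebraMap (MvPolynomial (Fin 10) K) M) := by
    rw [IsScalarTower.algebraMap_eq (MvPolynomial (Fin 10) K)
      (FractionRing (MvPolynomial (Fin 10) K)) M]
    exact (algebraMap (FractionRing (MvPolynomial (Fin 10) K)) M).injective.comp
      (IsFractionRing.injective (MvPolynomial (Fin 10) K) _)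
  have hx : AlgebraicIndependent K x := by
    have h1 := (MvPolynomial.algebraicIndependent_X (Fin 10) K).map'
      (f := IsScalarTower.toAlgHom K (MvPolynomial (Fin 10) K) M) hinj
    exact h1
  obtain ⟨y, hy⟩ := IsAlgClosed.exists_pow_nat_eq
    (aeval (x 0) P + aeval (x 0) Q * (x 1) ^ 2) (n := 2) (by norm_num)
  have hXe : ∀ i : Fin 5, ∃ X : M, X ^ 2 = (x 0 * x 2 - algebraMap K M (e i) * x 2) /
      algebraMap K M (1 - e i) + algebraMap K M (c i) * (x (![3, 4, 5, 6, 7] i)) ^ 2 :=
    fun i => IsAlgClosed.exists_pow_nat_eq _ (by norm_num)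
  choose X hX using hXe
  obtain ⟨X', hX'⟩ := IsAlgClosed.exists_pow_nat_eq
    (x 2 + algebraMap K M c' * (x 8) ^ 2) (n := 2) (by norm_num)
  refine tow_of (M := M) P Q e c c' (x 0) y (x 1) (x 2) X (fun i => x (![3, 4, 5, 6, 7] i))
    X' (x 8) (x 9) hy ?_ ?_ ?_
  · intro i
    have h1 : algebraMap K M (1 - e i) ≠ 0 := by
      rw [Ne, map_eq_zero_iff _ (algebraMap K M).injective, sub_eq_zero]
      exact fun h => he i h.symm
    rw [hX i, add_sub_cancel_right, mul_div_cancel₀ _ h1]
  · rw [hX']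
    ring
  · have h2 : ![x 0, x 1, x 2, x (![3, 4, 5, 6, 7] 0), x (![3, 4, 5, 6, 7] 1),
        x (![3, 4, 5, 6, 7] 2), x (![3, 4, 5, 6, 7] 3), x (![3, 4, 5, 6, 7] 4), x 8, x 9] = x := by
      funext j
      fin_cases j <;> rfl
    rw [h2]
    exact hx

end Pool.Agent.H12.UN
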